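import Pool.Agent.W818.K4.Wt

/-! Numerical consequences for a `K_4^3`-free 3-graph with a large independent set. -/

set_option autoImplicit false
open Finset

namespace Pool.Agent.W818.K4

open Pool.Agent.W650.TurTwo

variable {n : ℕ}

theorem inner (T : Finset (Finset (Fin n)))
    (hT : ∀ S : Finset (Fin n), S.card = 4 → ∃ e ∈ T, e ⊆ S) (h3 : ∀ e ∈ T, e.card = 3)
    (A : Finset (Fin n)) (hA : ∀ e : Finset (Fin n), e ⊆ A → e.card = 3 → e ∈ T) :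
    s T Aᶜ Aᶜ ≤ (√41 - 3) / 6 * (Aᶜ.card : ℝ) ^ 3 := by
  have h := two T hT h3 A hA 0 1
  have h41 : √41 ^ 2 = (41 : ℝ) := Real.sq_sqrt (by norm_num)
  have h41' : (6 : ℝ) ≤ √41 := by
    rw [show (6 : ℝ) = √(6 ^ 2) from (Real.sqrt_sq (by norm_num)).symm]
    exact Real.sqrt_le_sqrt (by norm_num)
  rcases Nat.eq_zero_or_pos Aᶜ.card with h0 | hpos
  · have : Aᶜ = ∅ := Finset.card_eq_zero.1 h0
    simp [s, this]
  set b : ℝ := (Aᶜ.card : ℝ) with hb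
  have hb0 : 0 < b := by rw [hb]; exact_mod_cast hpos
  have hs := s_nonneg T Aᶜ Aᶜ
  set S3 := s T Aᶜ Aᶜ
  have h2 : b * S3 + S3 ^ 2 / b ^ 2 ≤ 8 / 9 * b ^ 4 := by
    have e : ((0 : ℕ) : ℝ) = 0 := by norm_num
    have e1 : ((1 : ℕ) : ℝ) = 1 := by norm_num
    rw [e, e1] at h
    simpa using h
  clear h
  clear_value S3 b
  obtain ⟨x, hx⟩ : ∃ x, x = S3 / b ^ 3 := ⟨_, rfl⟩
  have hxS : S3 = x * b ^ 3 := by rw [hx]; field_simp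
  have hx0 : 0 ≤ x := by rw [hx]; positivity
  have h4 : x + x ^ 2 ≤ 8 / 9 := by
    rw [hxS] at h2
    have h5 : b * (x * b ^ 3) + (x * b ^ 3) ^ 2 / b ^ 2 = (x + x ^ 2) * b ^ 4 := by
      field_simp
    rw [h5] at h2
    exact le_of_mul_le_mul_right h2 (by positivity)
  rw [hxS]
  refine mul_le_mul_of_nonneg_right ?_ (by positivity)
  nlinarith

/-- the three constraints in normalised form -/
theorem cons (T : Finset (Finset (Fin n)))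
    (hT : ∀ S : Finset (Fin n), S.card = 4 → ∃ e ∈ T, e ⊆ S) (h3 : ∀ e ∈ T, e.card = 3)
    (A : Finset (Fin n)) (hA : ∀ e : Finset (Fin n), e ⊆ A → e.card = 3 → e ∈ T)
    (ha : 0 < A.card) (hb : 0 < Aᶜ.card) :
    ∃ x1 x2 x3 : ℝ, 0 ≤ x1 ∧ 0 ≤ x2 ∧ 0 ≤ x3 ∧
      s T A Aᶜ = x1 * ((A.card : ℝ) ^ 2 * Aᶜ.card) ∧ s T Aᶜ A = x2 * ((A.card : ℝ) * Aᶜ.card ^ 2) ∧
      s T Aᶜ Aᶜ = x3 * (Aᶜ.card : ℝ) ^ 3 ∧ x1 ^ 2 + x2 ^ 2 ≤ 1 ∧ x3 + x3 ^ 2 ≤ 8 / 9 ∧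
      6 * (x1 + x2) + 2 * x3 + x1 ^ 2 + 2 * (x1 + x2) ^ 2 + (x2 + x3) ^ 2 ≤ 128 / 9 := by
  have h0 := two T hT h3 A hA 0 1
  have h1 := two T hT h3 A hA Aᶜ.card A.card
  have hq1 := s_sq_le T A Aᶜ
  have hq2 := s_sq_le T Aᶜ A
  have hq := s2_add_le T hT h3 A Aᶜ
  have n1 := s_nonneg T A Aᶜ
  have n2 := s_nonneg T Aᶜ A
  have n3 := s_nonneg T Aᶜ Aᶜ
  set a : ℝ := (A.card : ℝ) with hadef
  set b : ℝ := (Aᶜ.card : ℝ) with hbdef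
  have ha0 : 0 < a := by rw [hadef]; exact_mod_cast ha
  have hb0 : 0 < b := by rw [hbdef]; exact_mod_cast hb
  set S1 := s T A Aᶜ
  set S2 := s T Aᶜ A
  set S3 := s T Aᶜ Aᶜ
  clear_value S1 S2 S3 a b
  obtain ⟨x1, hx1⟩ : ∃ x, x = S1 / (a ^ 2 * b) := ⟨_, rfl⟩
  obtain ⟨x2, hx2⟩ : ∃ x, x = S2 / (a * b ^ 2) := ⟨_, rfl⟩
  obtain ⟨x3, hx3⟩ : ∃ x, x = S3 / b ^ 3 := ⟨_, rfl⟩
  have e1 : S1 = x1 * (a ^ 2 * b) := by rw [hx1]; field_simp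
  have e2 : S2 = x2 * (a * b ^ 2) := by rw [hx2]; field_simp
  have e3 : S3 = x3 * b ^ 3 := by rw [hx3]; field_simp
  have p1 : 0 ≤ x1 := by rw [hx1]; positivity
  have p2 : 0 ≤ x2 := by rw [hx2]; positivity
  have p3 : 0 ≤ x3 := by rw [hx3]; positivity
  refine ⟨x1, x2, x3, p1, p2, p3, e1, e2, e3, ?_, ?_, ?_⟩
  · have k1 : x1 ^ 2 * (a ^ 2 * b ^ 2) ≤ s2 T A Aᶜ := by
      rw [e1] at hq1
      have : a ^ 2 * (x1 ^ 2 * (a ^ 2 * b ^ 2)) ≤ a ^ 2 * s2 T A Aᶜ := by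
        calc _ = (x1 * (a ^ 2 * b)) ^ 2 := by ring
          _ ≤ _ := hq1
      exact le_of_mul_le_mul_left this (by positivity)
    have k2 : x2 ^ 2 * (a ^ 2 * b ^ 2) ≤ s2 T Aᶜ A := by
      rw [e2] at hq2
      have : b ^ 2 * (x2 ^ 2 * (a ^ 2 * b ^ 2)) ≤ b ^ 2 * s2 T Aᶜ A := by
        calc _ = (x2 * (a * b ^ 2)) ^ 2 := by ring
          _ ≤ _ := hq2
      exact le_of_mul_le_mul_left this (by positivity)
    have : (x1 ^ 2 + x2 ^ 2) * (a ^ 2 * b ^ 2) ≤ 1 * (a ^ 2 * b ^ 2) := by linarith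
    exact le_of_mul_le_mul_right this (by positivity)
  · have h2 : b * S3 + S3 ^ 2 / b ^ 2 ≤ 8 / 9 * b ^ 4 := by
      have e : ((0 : ℕ) : ℝ) = 0 := by norm_num
      have e1 : ((1 : ℕ) : ℝ) = 1 := by norm_num
      rw [e, e1] at h0
      simpa using h0
    rw [e3] at h2
    have h5 : b * (x3 * b ^ 3) + (x3 * b ^ 3) ^ 2 / b ^ 2 = (x3 + x3 ^ 2) * b ^ 4 := by
      field_simp
    rw [h5] at h2
    exact le_of_mul_le_mul_right h2 (by positivity)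
  · rw [e1, e2, e3] at h1
    have h5 : (b * a + a * b) * (3 * b ^ 2 * a * (x1 * (a ^ 2 * b)) +
        3 * b * a ^ 2 * (x2 * (a * b ^ 2)) + a ^ 3 * (x3 * b ^ 3)) +
        b ^ 2 * a ^ 2 * (x1 * (a ^ 2 * b)) ^ 2 / a ^ 2 +
        2 * b * a * (b * (x1 * (a ^ 2 * b)) + a * (x2 * (a * b ^ 2))) ^ 2 / (a * b) +
        a ^ 2 * (b * (x2 * (a * b ^ 2)) + a * (x3 * b ^ 3)) ^ 2 / b ^ 2 =
        (6 * (x1 + x2) + 2 * x3 + x1 ^ 2 + 2 * (x1 + x2) ^ 2 + (x2 + x3) ^ 2) *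
          (a ^ 4 * b ^ 4) := by
      field_simp
      ring
    rw [h5] at h1
    have h6 : (8 : ℝ) / 9 * (b * a + a * b) ^ 4 = 128 / 9 * (a ^ 4 * b ^ 4) := by ring
    rw [h6] at h1
    exact le_of_mul_le_mul_right h1 (by positivity)

theorem num57 (x1 x2 x3 al : ℝ) (p1 : 0 ≤ x1) (p2 : 0 ≤ x2) (p3 : 0 ≤ x3)
    (c1 : x1 ^ 2 + x2 ^ 2 ≤ 1) (c3 : x3 + x3 ^ 2 ≤ 8 / 9)
    (c2 : 6 * (x1 + x2) + 2 * x3 + x1 ^ 2 + 2 * (x1 + x2) ^ 2 + (x2 + x3) ^ 2 ≤ 128 / 9)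
    (l : 0.57 ≤ al) (u : al ≤ 0.5701) :
    3 * al ^ 2 * (1 - al) * x1 + 3 * al * (1 - al) ^ 2 * x2 + (1 - al) ^ 3 * x3 ≤ 0.5550 := by
  obtain ⟨t, rfl⟩ : ∃ t, al = 0.57 + t := ⟨al - 0.57, by ring⟩
  have ht : 0 ≤ t := by linarith
  have u1 : 3 * (0.57 + t) ^ 2 * (1 - (0.57 + t)) ≤ 0.4192 := by
    nlinarith [sq_nonneg t, pow_nonneg ht 3]
  have u2 : 3 * (0.57 + t) * (1 - (0.57 + t)) ^ 2 ≤ 0.3162 := by
    nlinarith [sq_nonneg t, pow_nonneg ht 3]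
  have u3 : (1 - (0.57 + t)) ^ 3 ≤ 0.07951 := by nlinarith [sq_nonneg t, pow_nonneg ht 3]
  have v3 : x3 ≤ 0.5672 := by nlinarith
  have w : 0.4192 * x1 + 0.3162 * x2 + 0.07951 * x3 ≤ 0.5550 := by
    nlinarith [sq_nonneg (x1 - 0.9195), sq_nonneg (x2 - 0.3931), sq_nonneg (x1 + x2 - 1.3126),
      sq_nonneg (x2 + x3 - 0.96)]
  have a1 := mul_le_mul_of_nonneg_right u1 p1
  have a2 := mul_le_mul_of_nonneg_right u2 p2
  have a3 := mul_le_mul_of_nonneg_right u3 p3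
  linarith

theorem num53 (x1 x2 x3 al : ℝ) (p1 : 0 ≤ x1) (p2 : 0 ≤ x2) (p3 : 0 ≤ x3)
    (c1 : x1 ^ 2 + x2 ^ 2 ≤ 1) (c3 : x3 + x3 ^ 2 ≤ 8 / 9)
    (c2 : 6 * (x1 + x2) + 2 * x3 + x1 ^ 2 + 2 * (x1 + x2) ^ 2 + (x2 + x3) ^ 2 ≤ 128 / 9)
    (l : 0.53 ≤ al) (u : al ≤ 0.53001) :
    3 * al ^ 2 * (1 - al) * x1 + 3 * al * (1 - al) ^ 2 * x2 + (1 - al) ^ 3 * x3 ≤ 0.5612 := by
  obtain ⟨t, rfl⟩ : ∃ t, al = 0.53 + t := ⟨al - 0.53, by ring⟩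
  have ht : 0 ≤ t := by linarith
  have u1 : 3 * (0.53 + t) ^ 2 * (1 - (0.53 + t)) ≤ 0.39608 := by
    nlinarith [sq_nonneg t, pow_nonneg ht 3]
  have u2 : 3 * (0.53 + t) * (1 - (0.53 + t)) ^ 2 ≤ 0.351232 := by
    nlinarith [sq_nonneg t, pow_nonneg ht 3]
  have u3 : (1 - (0.53 + t)) ^ 3 ≤ 0.103824 := by nlinarith [sq_nonneg t, pow_nonneg ht 3]
  have v3 : x3 ≤ 0.5672 := by nlinarith
  have w : 0.39608 * x1 + 0.351232 * x2 + 0.103824 * x3 ≤ 0.5612 := by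
    nlinarith [sq_nonneg (x1 - 0.9195), sq_nonneg (x2 - 0.3931), sq_nonneg (x1 + x2 - 1.3126),
      sq_nonneg (x2 + x3 - 0.96)]
  have a1 := mul_le_mul_of_nonneg_right u1 p1
  have a2 := mul_le_mul_of_nonneg_right u2 p2
  have a3 := mul_le_mul_of_nonneg_right u3 p3
  linarith

theorem shrink {A : Finset (Fin n)} {c : ℕ} (hc : c * n ≤ 100 * A.card) :
    ∃ A' ⊆ A, c * n ≤ 100 * A'.card ∧ 100 * A'.card ≤ c * n + 100 := by
  obtain ⟨A', h1, h2⟩ := Finset.exists_subset_card_eq (s := A) (n := (c * n + 99) / 100)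
    (by omega)
  exact ⟨A', h1, by omega, by omega⟩

theorem dens (T : Finset (Finset (Fin n)))
    (hT : ∀ S : Finset (Fin n), S.card = 4 → ∃ e ∈ T, e ⊆ S) (h3 : ∀ e ∈ T, e.card = 3)
    (A : Finset (Fin n)) (hA : ∀ e : Finset (Fin n), e ⊆ A → e.card = 3 → e ∈ T)
    (hn : 100000 ≤ n) (c : ℕ) (hc : c * n ≤ 100 * A.card) (D E : ℝ) (hDE : D + 0.0001 ≤ E)
    (hE : E ≤ 1) (hc0 : 0 < c) (hc1 : c < 90)
    (hnum : ∀ x1 x2 x3 al : ℝ, 0 ≤ x1 → 0 ≤ x2 → 0 ≤ x3 → x1 ^ 2 + x2 ^ 2 ≤ 1 →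
      x3 + x3 ^ 2 ≤ 8 / 9 →
      6 * (x1 + x2) + 2 * x3 + x1 ^ 2 + 2 * (x1 + x2) ^ 2 + (x2 + x3) ^ 2 ≤ 128 / 9 →
      (c : ℝ) / 100 ≤ al → al ≤ (c : ℝ) / 100 + 0.00001 →
      3 * al ^ 2 * (1 - al) * x1 + 3 * al * (1 - al) ^ 2 * x2 + (1 - al) ^ 3 * x3 ≤ D) :
    (n.choose 3 : ℝ) - T.card ≤ E * (n.choose 3 : ℝ) := by
  obtain ⟨A', hsub, k1, k2⟩ := shrink hc
  have hA' : ∀ e : Finset (Fin n), e ⊆ A' → e.card = 3 → e ∈ T :=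
    fun e he => hA e (he.trans hsub)
  have hcard : A'.card + A'ᶜ.card = n := by
    rw [Finset.card_add_card_compl, Fintype.card_fin]
  have ha : 0 < A'.card := by nlinarith
  have hb : 0 < A'ᶜ.card := by
    by_contra h
    have : A'.card = n := by omega
    rw [this] at k2
    have : c * n + 10 * n ≤ 100 * n := by nlinarith
    omega
  obtain ⟨x1, x2, x3, p1, p2, p3, e1, e2, e3, c1, c3, c2⟩ := cons T hT h3 A' hA' ha hb
  have h6 := six T h3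
  rw [split T A', s_clique T A' hA', e1, e2, e3] at h6
  have hn0 : (100000 : ℝ) ≤ n := by exact_mod_cast hn
  have hab : (A'.card : ℝ) + (A'ᶜ.card : ℝ) = n := by exact_mod_cast hcard
  have hch := choose_real n (by omega)
  have r1 : (c : ℝ) * n ≤ 100 * A'.card := by exact_mod_cast k1
  have r2 : 100 * (A'.card : ℝ) ≤ c * n + 100 := by exact_mod_cast k2
  set a : ℝ := (A'.card : ℝ)
  set b : ℝ := (A'ᶜ.card : ℝ)
  set m : ℝ := (n : ℝ)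
  have hm0 : 0 < m := by linarith
  clear_value a b m
  obtain ⟨al, hal⟩ : ∃ al, al = a / m := ⟨_, rfl⟩
  have ea : a = al * m := by rw [hal]; field_simp
  have eb : b = (1 - al) * m := by rw [← hab, ea] at *; nlinarith
  have q1 : (c : ℝ) / 100 ≤ al := by
    rw [hal, le_div_iff₀ hm0]; linarith
  have q2 : al ≤ (c : ℝ) / 100 + 0.00001 := by
    rw [hal, div_le_iff₀ hm0]
    nlinarith
  have hD := hnum x1 x2 x3 al p1 p2 p3 c1 c3 c2 q1 q2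
  have h7 : 6 * ((n.choose 3 : ℝ) - T.card) =
      (3 * al ^ 2 * (1 - al) * x1 + 3 * al * (1 - al) ^ 2 * x2 + (1 - al) ^ 3 * x3) * m ^ 3 := by
    rw [← h6, ea, eb]; ring
  have h8 : 6 * ((n.choose 3 : ℝ) - T.card) ≤ D * m ^ 3 := by
    rw [h7]
    exact mul_le_mul_of_nonneg_right hD (by positivity)
  have h9 : D * m ^ 3 ≤ E * (m * (m - 1) * (m - 2)) := by
    have : (E - 0.0001) * m ^ 3 ≤ E * (m * (m - 1) * (m - 2)) := by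
      have e : E * (m * (m - 1) * (m - 2)) - (E - 0.0001) * m ^ 3 =
          m ^ 2 * (0.0001 * m - 3 * E) + 2 * E * m := by ring
      have f1 : 0 ≤ 0.0001 * m - 3 * E := by linarith
      have f2 : 0 ≤ E + 1 := by
        by_contra hneg
        have g := hnum 0 0 0 ((c : ℝ) / 100) le_rfl le_rfl le_rfl (by norm_num) (by norm_num)
          (by norm_num) le_rfl (by linarith)
        simp only [mul_zero, add_zero] at g
        linarith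
      have g := hnum 0 0 0 ((c : ℝ) / 100) le_rfl le_rfl le_rfl (by norm_num) (by norm_num)
          (by norm_num) le_rfl (by linarith)
      simp only [mul_zero, add_zero] at g
      have f3 : 0 ≤ E := by linarith
      have : 0 ≤ m ^ 2 * (0.0001 * m - 3 * E) + 2 * E * m := by positivity
      linarith
    have h10 : D * m ^ 3 ≤ (E - 0.0001) * m ^ 3 :=
      mul_le_mul_of_nonneg_right (by linarith) (by positivity)
    linarith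
  rw [hch]
  rw [hch] at h8
  linarith

end Pool.Agent.W818.K4
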