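import Pool.Agent.H449R2.Fl.L12
import Pool.Agent.H449R2.Fl.Copies
import Pool.Agent.W650.TurTwo

/-! Weighted codegree inequality for `K_4^3`-free 3-graphs, and its two-part form. -/

set_option autoImplicit false
open Finset

namespace Pool.Agent.W818.K4

open Pool.Agent.H449R2.Fl

theorem g_eq {V : Type} {e : V → V → V → ℕ} (he : Pat e) (a b c d : V) :
    L12.g (sg e a b c d) = 4947802324992 * (e a b c + e a b c * e a b d) := by
  have l0 := he.le1 a b c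
  have l1 := he.le1 a b d
  have l2 := he.le1 a c d
  have l3 := he.le1 b c d
  unfold sg
  interval_cases h0 : e a b c <;> interval_cases h1 : e a b d <;>
    interval_cases h2 : e a c d <;> interval_cases h3 : e b c d <;> rfl

/-- the codegree inequality on an arbitrary finite type -/
theorem base {V : Type} [Fintype V] {e : V → V → V → ℕ} (he : Pat e)
    (hK : ∀ a b c d, sg e a b c d ≠ 15) :
    (Fintype.card V : ℝ) * ∑ a, ∑ b, ∑ c, (e a b c : ℝ) + ∑ a, ∑ b, (∑ c, (e a b c : ℝ)) ^ 2 ≤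
      8 / 9 * (Fintype.card V : ℝ) ^ 4 := by
  rcases Nat.eq_zero_or_pos (Fintype.card V) with h0 | hpos
  · have : IsEmpty V := Fintype.card_eq_zero_iff.1 h0
    simp
  have hV : (0 : ℝ) < Fintype.card V := by exact_mod_cast hpos
  have hb := L12.bound he (hasK4_false hK)
  have hb' : (720 : ℝ) * ∑ a, ∑ b, ∑ c, ∑ d, ∑ _x : V, ∑ _y : V, (L12.g (sg e a b c d) : ℝ) ≤
      3166593487994880 * (Fintype.card V : ℝ) ^ 6 := by exact_mod_cast hb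
  have h1 : ∑ a, ∑ b, ∑ c, ∑ d, ∑ _x : V, ∑ _y : V, (L12.g (sg e a b c d) : ℝ) =
      4947802324992 * ((Fintype.card V : ℝ) ^ 2 * ((Fintype.card V : ℝ) *
        ∑ a, ∑ b, ∑ c, (e a b c : ℝ) + ∑ a, ∑ b, (∑ c, (e a b c : ℝ)) ^ 2)) := by
    have e2 : ∀ a b : V, ∑ c, ∑ d, ∑ _x : V, ∑ _y : V, (L12.g (sg e a b c d) : ℝ) =
        4947802324992 * ((Fintype.card V : ℝ) ^ 2 * ((Fintype.card V : ℝ) *
          ∑ c, (e a b c : ℝ) + (∑ c, (e a b c : ℝ)) ^ 2)) := by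
      intro a b
      have e3 : ∀ c : V, ∑ d, ∑ _x : V, ∑ _y : V, (L12.g (sg e a b c d) : ℝ) =
          4947802324992 * ((Fintype.card V : ℝ) ^ 2 * ((Fintype.card V : ℝ) * (e a b c : ℝ) +
            (e a b c : ℝ) * ∑ d, (e a b d : ℝ))) := by
        intro c
        simp only [g_eq he, sum_const, card_univ, nsmul_eq_mul]
        push_cast
        have e4 : ∀ d : V, (Fintype.card V : ℝ) * ((Fintype.card V : ℝ) * (4947802324992 *
            ((e a b c : ℝ) + (e a b c : ℝ) * (e a b d : ℝ)))) =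
            4947802324992 * ((Fintype.card V : ℝ) ^ 2 * (e a b c : ℝ)) +
              4947802324992 * ((Fintype.card V : ℝ) ^ 2 * (e a b c : ℝ)) * (e a b d : ℝ) := by
          intro d; ring
        rw [sum_congr rfl fun d _ => e4 d, sum_add_distrib, sum_const, card_univ,
          nsmul_eq_mul, ← mul_sum]
        ring
      rw [sum_congr rfl fun c _ => e3 c, ← mul_sum, ← mul_sum, sum_add_distrib, ← mul_sum,
        ← sum_mul]
      ring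
    rw [sum_congr rfl fun a _ => sum_congr rfl fun b _ => e2 a b]
    simp only [← mul_sum, sum_add_distrib]
  rw [h1] at hb'
  have h2 : 0 < (Fintype.card V : ℝ) ^ 2 := by positivity
  nlinarith [hb']

theorem sum_sig {n : ℕ} (w : Fin n → ℕ) (F : Fin n → ℝ) :
    ∑ x : (Σ v : Fin n, Fin (w v)), F x.1 = ∑ v, (w v : ℝ) * F v := by
  rw [Fintype.sum_sigma]
  refine sum_congr rfl fun v _ => ?_
  simp

/-- the codegree inequality with vertex weights -/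
theorem wtd {n : ℕ} {e : Fin n → Fin n → Fin n → ℕ} (he : Pat e)
    (hK : ∀ a b c d, sg e a b c d ≠ 15) (w : Fin n → ℕ) :
    (∑ v, (w v : ℝ)) * ∑ a, (w a : ℝ) * ∑ b, (w b : ℝ) * ∑ c, (w c : ℝ) * (e a b c : ℝ) +
      ∑ a, (w a : ℝ) * ∑ b, (w b : ℝ) * (∑ c, (w c : ℝ) * (e a b c : ℝ)) ^ 2 ≤
      8 / 9 * (∑ v, (w v : ℝ)) ^ 4 := by
  have h := base (V := Σ v : Fin n, Fin (w v)) (e := fun x y z => e x.1 y.1 z.1)
    ⟨fun _ _ _ => he.le1 _ _ _, fun _ _ _ => he.s12 _ _ _, fun _ _ _ => he.s23 _ _ _,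
      fun _ _ => he.dg _ _⟩ (fun _ _ _ _ => hK _ _ _ _)
  have hc : (Fintype.card (Σ v : Fin n, Fin (w v)) : ℝ) = ∑ v, (w v : ℝ) := by
    rw [Fintype.card_sigma]
    push_cast
    simp
  rw [hc] at h
  have e1 : ∀ a b : Fin n, ∑ c : (Σ v : Fin n, Fin (w v)), (e a b c.1 : ℝ) =
      ∑ c, (w c : ℝ) * (e a b c : ℝ) := fun a b => sum_sig w fun c => (e a b c : ℝ)
  simp only [e1] at h
  have e2 : ∀ a : Fin n, ∑ b : (Σ v : Fin n, Fin (w v)), ∑ c, (w c : ℝ) * (e a b.1 c : ℝ) =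
      ∑ b, (w b : ℝ) * ∑ c, (w c : ℝ) * (e a b c : ℝ) :=
    fun a => sum_sig w fun b => ∑ c, (w c : ℝ) * (e a b c : ℝ)
  have e3 : ∀ a : Fin n, ∑ b : (Σ v : Fin n, Fin (w v)), (∑ c, (w c : ℝ) * (e a b.1 c : ℝ)) ^ 2 =
      ∑ b, (w b : ℝ) * (∑ c, (w c : ℝ) * (e a b c : ℝ)) ^ 2 :=
    fun a => sum_sig w fun b => (∑ c, (w c : ℝ) * (e a b c : ℝ)) ^ 2
  simp only [e2, e3] at h
  rw [sum_sig w fun a => ∑ b, (w b : ℝ) * ∑ c, (w c : ℝ) * (e a b c : ℝ),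
    sum_sig w fun a => ∑ b, (w b : ℝ) * (∑ c, (w c : ℝ) * (e a b c : ℝ)) ^ 2] at h
  exact h

/-- Cauchy-Schwarz for a double sum -/
theorem cs2 {n : ℕ} (A B : Finset (Fin n)) (F : Fin n → Fin n → ℝ) :
    (∑ x ∈ A, ∑ y ∈ B, F x y) ^ 2 ≤ (A.card : ℝ) * B.card * ∑ x ∈ A, ∑ y ∈ B, F x y ^ 2 := by
  have h1 : (∑ x ∈ A, ∑ y ∈ B, F x y) ^ 2 ≤ (A.card : ℝ) * ∑ x ∈ A, (∑ y ∈ B, F x y) ^ 2 :=
    sq_sum_le_card_mul_sum_sq
  have h2 : ∑ x ∈ A, (∑ y ∈ B, F x y) ^ 2 ≤ ∑ x ∈ A, (B.card : ℝ) * ∑ y ∈ B, F x y ^ 2 :=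
    sum_le_sum fun x _ => sq_sum_le_card_mul_sum_sq
  rw [← mul_sum] at h2
  have h3 : (0 : ℝ) ≤ A.card := Nat.cast_nonneg _
  calc _ ≤ _ := h1
    _ ≤ (A.card : ℝ) * ((B.card : ℝ) * ∑ x ∈ A, ∑ y ∈ B, F x y ^ 2) :=
        mul_le_mul_of_nonneg_left h2 h3
    _ = _ := by ring

open Pool.Agent.W650.TurTwo in
/-- the two-part form: `A` independent, weights `p` on `A` and `q` on the complement -/
theorem two {n : ℕ} (T : Finset (Finset (Fin n)))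
    (hT : ∀ S : Finset (Fin n), S.card = 4 → ∃ e ∈ T, e ⊆ S) (h3 : ∀ e ∈ T, e.card = 3)
    (A : Finset (Fin n)) (hA : ∀ e : Finset (Fin n), e ⊆ A → e.card = 3 → e ∈ T)
    (p q : ℕ) :
    ((p : ℝ) * A.card + q * Aᶜ.card) * (3 * (p : ℝ) ^ 2 * q * s T A Aᶜ +
        3 * (p : ℝ) * q ^ 2 * s T Aᶜ A + (q : ℝ) ^ 3 * s T Aᶜ Aᶜ) +
      (p : ℝ) ^ 2 * q ^ 2 * s T A Aᶜ ^ 2 / (A.card : ℝ) ^ 2 +
      2 * p * q * (p * s T A Aᶜ + q * s T Aᶜ A) ^ 2 / (A.card * Aᶜ.card) +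
      (q : ℝ) ^ 2 * (p * s T Aᶜ A + q * s T Aᶜ Aᶜ) ^ 2 / (Aᶜ.card : ℝ) ^ 2 ≤
      8 / 9 * ((p : ℝ) * A.card + q * Aᶜ.card) ^ 4 := by
  classical
  -- the edge indicator
  set e : Fin n → Fin n → Fin n → ℕ := fun x y z =>
    if x ≠ y ∧ y ≠ z ∧ x ≠ z ∧ ({x, y, z} : Finset (Fin n)) ∉ T then 1 else 0 with he
  have hf : ∀ x y z, (e x y z : ℝ) = f T x y z := by
    intro x y z
    simp only [he, f]
    split_ifs <;> simp
  have hle : ∀ x y z, e x y z ≤ 1 := by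
    intro x y z; simp only [he]; split_ifs <;> simp
  have hpat : Pat e := by
    refine ⟨hle, fun x y z => ?_, fun x y z => ?_, fun x y => ?_⟩
    · have := f_swap12 T x y z
      rw [← hf, ← hf] at this
      exact_mod_cast this.symm
    · have := f_swap23 T x y z
      rw [← hf, ← hf] at this
      exact_mod_cast this.symm
    · simp [he]
  have hK : ∀ a b c d, sg e a b c d ≠ 15 := by
    intro a b c d h
    have l1 := hle a b c
    have l2 := hle a b d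
    have l3 := hle a c d
    have l4 := hle b c d
    simp only [sg, Nat.add_eq, Nat.mul_eq] at h
    have e1 : e a b c = 1 := by omega
    have e2 : e a b d = 1 := by omega
    have e3 : e a c d = 1 := by omega
    have e4 : e b c d = 1 := by omega
    have f1 : f T a b c = 1 := by rw [← hf, e1]; simp
    have f2 : f T a b d = 1 := by rw [← hf, e2]; simp
    have f3 : f T c d a = 1 := by
      rw [f_swap23, f_swap12, ← hf, e3]; simp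
    have f4 : f T c d b = 1 := by
      rw [f_swap23, f_swap12, ← hf, e4]; simp
    have := key T hT h3 a b c d
    rw [f1, f2, f3, f4] at this
    norm_num at this
  have hw := wtd hpat hK (fun v => if v ∈ A then p else q)
  have hs : ∀ g : Fin n → ℝ, ∑ x, g x = ∑ x ∈ A, g x + ∑ x ∈ Aᶜ, g x := fun g =>
    (sum_add_sum_compl A g).symm
  have hwt : ∀ g : Fin n → ℝ, ∑ x, (((if x ∈ A then p else q : ℕ)) : ℝ) * g x =
      p * ∑ x ∈ A, g x + q * ∑ x ∈ Aᶜ, g x := by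
    intro g
    rw [hs, mul_sum, mul_sum]
    congr 1
    · refine sum_congr rfl fun x hx => ?_
      rw [if_pos hx]
    · refine sum_congr rfl fun x hx => ?_
      rw [if_neg (mem_compl.1 hx)]
  have hW : ∑ x : Fin n, (((if x ∈ A then p else q : ℕ)) : ℝ) = p * A.card + q * Aᶜ.card := by
    have := hwt fun _ => 1
    simpa using this
  simp only [hf] at hw
  simp only [hwt] at hw
  rw [hW] at hw
  -- names
  set a : ℝ := (A.card : ℝ) with hadef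
  set b : ℝ := (Aᶜ.card : ℝ) with hbdef
  have ha0 : 0 ≤ a := Nat.cast_nonneg _
  have hb0 : 0 ≤ b := Nat.cast_nonneg _
  have hAA : ∀ x ∈ A, ∀ y ∈ A, ∑ z ∈ A, f T x y z = 0 := by
    intro x hx y hy
    refine sum_eq_zero fun z hz => ?_
    rcases f_01 T x y z with h | h
    · exact h
    · exfalso
      obtain ⟨a1, a2, a3, a4⟩ := f_one h
      apply a4
      apply hA
      · intro t ht
        simp only [mem_insert, mem_singleton] at ht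
        rcases ht with rfl | rfl | rfl <;> assumption
      · rw [card_insert_of_notMem, card_insert_of_notMem, card_singleton]
        · simpa using a2
        · simp [a1, a3]
  set h : Fin n → Fin n → ℝ := fun x y => p * ∑ z ∈ A, f T x y z + q * ∑ z ∈ Aᶜ, f T x y z
    with hdef
  have dist : ∀ (X : Finset (Fin n)) (k : Fin n → Fin n → ℝ),
      ∑ x ∈ X, ((p : ℝ) * ∑ y ∈ A, k x y + q * ∑ y ∈ Aᶜ, k x y) =
        p * ∑ x ∈ X, ∑ y ∈ A, k x y + q * ∑ x ∈ X, ∑ y ∈ Aᶜ, k x y := by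
    intro X k
    rw [sum_add_distrib, mul_sum, mul_sum]
  have hw' : (p * a + q * b) * (p * (p * ∑ x ∈ A, ∑ y ∈ A, h x y + q * ∑ x ∈ A, ∑ y ∈ Aᶜ, h x y) +
        q * (p * ∑ x ∈ Aᶜ, ∑ y ∈ A, h x y + q * ∑ x ∈ Aᶜ, ∑ y ∈ Aᶜ, h x y)) +
      (p * (p * ∑ x ∈ A, ∑ y ∈ A, h x y ^ 2 + q * ∑ x ∈ A, ∑ y ∈ Aᶜ, h x y ^ 2) +
        q * (p * ∑ x ∈ Aᶜ, ∑ y ∈ A, h x y ^ 2 + q * ∑ x ∈ Aᶜ, ∑ y ∈ Aᶜ, h x y ^ 2)) ≤
      8 / 9 * (p * a + q * b) ^ 4 := by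
    rw [← dist, ← dist, ← dist A (fun x y => h x y ^ 2), ← dist Aᶜ (fun x y => h x y ^ 2)]
    exact hw
  clear hw
  -- symmetric sums
  have dist3 : ∀ X Y : Finset (Fin n), ∑ x ∈ X, ∑ y ∈ Y, h x y =
      p * ∑ x ∈ X, ∑ y ∈ Y, ∑ z ∈ A, f T x y z + q * ∑ x ∈ X, ∑ y ∈ Y, ∑ z ∈ Aᶜ, f T x y z := by
    intro X Y
    simp only [hdef, sum_add_distrib, mul_sum]
  have t1 : ∑ x ∈ A, ∑ y ∈ Aᶜ, ∑ z ∈ A, f T x y z = s T A Aᶜ := by
    unfold s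
    refine sum_congr rfl fun x _ => ?_
    rw [sum_comm]
    exact sum_congr rfl fun y _ => sum_congr rfl fun z _ => f_swap23 _ _ _ _
  have t2 : ∑ x ∈ Aᶜ, ∑ y ∈ A, ∑ z ∈ A, f T x y z = s T A Aᶜ := by
    rw [sum_comm, ← t1]
    exact sum_congr rfl fun y _ => sum_congr rfl fun z _ => sum_congr rfl fun t _ =>
      f_swap12 _ _ _ _
  have t3 : ∑ x ∈ Aᶜ, ∑ y ∈ A, ∑ z ∈ Aᶜ, f T x y z = s T Aᶜ A := by
    unfold s
    refine sum_congr rfl fun x _ => ?_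
    rw [sum_comm]
    exact sum_congr rfl fun y _ => sum_congr rfl fun z _ => f_swap23 _ _ _ _
  have t4 : ∑ x ∈ A, ∑ y ∈ Aᶜ, ∑ z ∈ Aᶜ, f T x y z = s T Aᶜ A := by
    rw [sum_comm, ← t3]
    exact sum_congr rfl fun y _ => sum_congr rfl fun z _ => sum_congr rfl fun t _ =>
      f_swap12 _ _ _ _
  have t0 : ∑ x ∈ A, ∑ y ∈ A, ∑ z ∈ A, f T x y z = 0 :=
    sum_eq_zero fun x hx => sum_eq_zero fun y hy => hAA x hx y hy
  have t5 : ∑ x ∈ A, ∑ y ∈ A, ∑ z ∈ Aᶜ, f T x y z = s T A Aᶜ := rfl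
  have t6 : ∑ x ∈ Aᶜ, ∑ y ∈ Aᶜ, ∑ z ∈ A, f T x y z = s T Aᶜ A := rfl
  have t7 : ∑ x ∈ Aᶜ, ∑ y ∈ Aᶜ, ∑ z ∈ Aᶜ, f T x y z = s T Aᶜ Aᶜ := rfl
  have u1 : ∑ x ∈ A, ∑ y ∈ A, h x y = q * s T A Aᶜ := by rw [dist3, t0, t5]; ring
  have u2 : ∑ x ∈ A, ∑ y ∈ Aᶜ, h x y = p * s T A Aᶜ + q * s T Aᶜ A := by rw [dist3, t1, t4]
  have u3 : ∑ x ∈ Aᶜ, ∑ y ∈ A, h x y = p * s T A Aᶜ + q * s T Aᶜ A := by rw [dist3, t2, t3]
  have u4 : ∑ x ∈ Aᶜ, ∑ y ∈ Aᶜ, h x y = p * s T Aᶜ A + q * s T Aᶜ Aᶜ := by rw [dist3, t6, t7]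
  have c1 := cs2 A A h
  have c2 := cs2 A Aᶜ h
  have c3 := cs2 Aᶜ A h
  have c4 := cs2 Aᶜ Aᶜ h
  rw [u1] at c1
  rw [u2] at c2
  rw [u3] at c3
  rw [u4] at c4
  rw [u1, u2, u3, u4] at hw'
  rw [← hadef] at c1 c2 c3
  rw [← hbdef] at c2 c3 c4
  set S1 := s T A Aᶜ
  set S2 := s T Aᶜ A
  set S3 := s T Aᶜ Aᶜ
  set Q1 := ∑ x ∈ A, ∑ y ∈ A, h x y ^ 2
  set Q2 := ∑ x ∈ A, ∑ y ∈ Aᶜ, h x y ^ 2
  set Q3 := ∑ x ∈ Aᶜ, ∑ y ∈ A, h x y ^ 2
  set Q4 := ∑ x ∈ Aᶜ, ∑ y ∈ Aᶜ, h x y ^ 2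
  have hp0 : (0 : ℝ) ≤ p := Nat.cast_nonneg _
  have hq0 : (0 : ℝ) ≤ q := Nat.cast_nonneg _
  have hQ1 : 0 ≤ Q1 := sum_nonneg fun x _ => sum_nonneg fun y _ => sq_nonneg _
  have hQ2 : 0 ≤ Q2 := sum_nonneg fun x _ => sum_nonneg fun y _ => sq_nonneg _
  have hQ3 : 0 ≤ Q3 := sum_nonneg fun x _ => sum_nonneg fun y _ => sq_nonneg _
  have hQ4 : 0 ≤ Q4 := sum_nonneg fun x _ => sum_nonneg fun y _ => sq_nonneg _
  have d1 : (p : ℝ) ^ 2 * q ^ 2 * S1 ^ 2 / a ^ 2 ≤ p * p * Q1 := by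
    refine div_le_of_le_mul₀ (by positivity) (by positivity) ?_
    calc (p : ℝ) ^ 2 * q ^ 2 * S1 ^ 2 = p ^ 2 * (q * S1) ^ 2 := by ring
      _ ≤ p ^ 2 * (a * a * Q1) := mul_le_mul_of_nonneg_left c1 (by positivity)
      _ = p * p * Q1 * a ^ 2 := by ring
  have d2 : (p : ℝ) * q * (p * S1 + q * S2) ^ 2 / (a * b) ≤ p * q * Q2 := by
    refine div_le_of_le_mul₀ (by positivity) (by positivity) ?_
    calc (p : ℝ) * q * (p * S1 + q * S2) ^ 2 ≤ p * q * (a * b * Q2) :=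
          mul_le_mul_of_nonneg_left c2 (by positivity)
      _ = p * q * Q2 * (a * b) := by ring
  have d3 : (p : ℝ) * q * (p * S1 + q * S2) ^ 2 / (a * b) ≤ p * q * Q3 := by
    refine div_le_of_le_mul₀ (by positivity) (by positivity) ?_
    calc (p : ℝ) * q * (p * S1 + q * S2) ^ 2 ≤ p * q * (b * a * Q3) :=
          mul_le_mul_of_nonneg_left c3 (by positivity)
      _ = p * q * Q3 * (a * b) := by ring
  have d4 : (q : ℝ) ^ 2 * (p * S2 + q * S3) ^ 2 / b ^ 2 ≤ q * q * Q4 := by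
    refine div_le_of_le_mul₀ (by positivity) (by positivity) ?_
    calc (q : ℝ) ^ 2 * (p * S2 + q * S3) ^ 2 ≤ q ^ 2 * (b * b * Q4) :=
          mul_le_mul_of_nonneg_left c4 (by positivity)
      _ = q * q * Q4 * b ^ 2 := by ring
  have d23 : 2 * (p : ℝ) * q * (p * S1 + q * S2) ^ 2 / (a * b) =
      (p : ℝ) * q * (p * S1 + q * S2) ^ 2 / (a * b) +
        (p : ℝ) * q * (p * S1 + q * S2) ^ 2 / (a * b) := by ring
  rw [d23]
  calc _ ≤ (p * a + q * b) * (p * (p * (q * S1) + q * (p * S1 + q * S2)) +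
        q * (p * (p * S1 + q * S2) + q * (p * S2 + q * S3))) +
      (p * (p * Q1 + q * Q2) + q * (p * Q3 + q * Q4)) := by nlinarith [d1, d2, d3, d4]
    _ ≤ _ := hw'

end Pool.Agent.W818.K4
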